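import Pool.Agent.H.MP_636046_nt.F

set_option autoImplicit false

namespace Pool.Agent.Results.MP_0b7501_nt.Linear456
open N140ae710

theorem result (k : ℕ) (hk : k ∈ ({4, 5, 6} : Finset ℕ)) : ∃ c C : ℝ, 0 < c ∧ c ≤ C ∧ ∃ N : ℕ,
    ∀ n : ℕ, N ≤ n → c * n ≤ countD k n ∧ countD k n ≤ C * n :=
  Pool.Agent.H.MP_636046_nt.theta k hk

end Pool.Agent.Results.MP_0b7501_nt.Linear456
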